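import Pool.Agent.H.MP_bf2f06_lc.Main

open Filter Topology Pool.Agent.H.MP_bf2f06_lc

namespace Pool.Agent.Results.MP_bf2f06_lc.Yes

theorem result {V : Type} [Fintype V] [DecidableEq V] (G : SimpleGraph V) (hG : G.Connected) :
    Tendsto (fun n : ℕ => (cost G n : ℝ) / n) atTop (𝓝 (fc G)) ∧
      Tendsto (fun n : ℕ => (costAll G n : ℝ) / n) atTop (𝓝 (fc G)) :=
  main G hG

end Pool.Agent.Results.MP_bf2f06_lc.Yes
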